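import Pool.Agent.H41.CP.Stmts

set_option autoImplicit false

/-!
The statements `S_TWO` and `S_AGREE` (project CP of helper41).
-/

namespace Pool.Agent.H127.CP.Two

open Pool.Agent.H41.CP

/-- two members of a set of three elements and a subset with two elements -/
theorem pick {S A : Finset (Fin 6)} (hS : S.card = 3) (hA : A ⊆ S) (hA2 : 2 ≤ A.card)
    {x y : Fin 6} (hx : x ∈ S) (hy : y ∈ S) (hxy : x ≠ y) : x ∈ A ∨ y ∈ A := by
  by_contra hc
  push Not at hc
  have h1 : A ⊆ (S.erase x).erase y := by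
    intro z hz
    rw [Finset.mem_erase, Finset.mem_erase]
    refine ⟨?_, ?_, hA hz⟩
    · rintro rfl
      exact hc.2 hz
    · rintro rfl
      exact hc.1 hz
  have h2 := Finset.card_le_card h1
  rw [Finset.card_erase_of_mem (Finset.mem_erase.2 ⟨hxy.symm, hy⟩),
    Finset.card_erase_of_mem hx, hS] at h2
  omega

theorem rr2 (hrr : S_RR) {F : Fin 3 → P6} {g g' : P6} {S T S' T' : Finset (Fin 6)}
    (h : RB F g S T) (h' : RB F g' S' T') :
    2 ≤ (S ∩ S').card ∧ ∀ x ∈ S ∩ S', g x = g' x := by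
  obtain ⟨-, h2, h3⟩ := hrr F g g' S T S' T' h h'
  refine ⟨?_, h3⟩
  rcases h2 with rfl | ⟨h2, -⟩
  · rw [Finset.inter_self, h.1]
    norm_num
  · rw [h2]

theorem into {F : Fin 3 → P6} {g : P6} {S T : Finset (Fin 6)} (h : RB F g S T) {x : Fin 6}
    (hx : x ∈ S) : g x ∈ T := by
  rw [← h.2.2 x hx]
  exact Finset.mem_insert_self _ _

/-- images and subsets of size three in a set of size four -/
theorem big {T A B : Finset (Fin 6)} (hT : T.card = 4) (hA : A ⊆ T) (hB : B ⊆ T)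
    (hA3 : A.card = 3) (hB3 : B.card = 3) : 2 ≤ (A ∩ B).card := by
  have h1 := Finset.card_union_add_card_inter A B
  have h2 := Finset.card_le_card (Finset.union_subset hA hB)
  omega

theorem img {F : Fin 3 → P6} {g : P6} {S T : Finset (Fin 6)} (h : RB F g S T) :
    S.image g ⊆ T ∧ (S.image g).card = 3 := by
  refine ⟨?_, ?_⟩
  · intro y hy
    obtain ⟨x, hx, rfl⟩ := Finset.mem_image.1 hy
    exact into h hx
  · rw [Finset.card_image_of_injective _ g.injective, h.1]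

/-- the case of two different kinds of blocks -/
theorem rcA (hrc : S_RC) {F : Fin 3 → P6} {g g' : P6} {S T S' T' : Finset (Fin 6)}
    (h : RB F g S T) (h' : RB (inv3 F) g'⁻¹ T' S') :
    2 ≤ (S.image g ∩ T').card ∧ ∀ x ∈ S, g x ∈ T' → g' x = g x := by
  obtain ⟨-, h2, h3⟩ := hrc F g g' S T S' T' h h'
  obtain ⟨h4, h5⟩ := img h
  exact ⟨big h.2.1 h4 h2 h5 h'.1, h3⟩

theorem rc_agree (hrc : S_RC) {F : Fin 3 → P6} {g g' : P6} {S T S' T' : Finset (Fin 6)}
    (h : RB F g S T) (h' : RB (inv3 F) g'⁻¹ T' S') :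
    ∃ x y, x ≠ y ∧ g' x = g x ∧ g' y = g y := by
  obtain ⟨h1, h2⟩ := rcA hrc h h'
  obtain ⟨a, ha, b, hb, hab⟩ := Finset.one_lt_card.1 (show 1 < (S.image g ∩ T').card by omega)
  rw [Finset.mem_inter, Finset.mem_image] at ha hb
  obtain ⟨⟨x, hx, rfl⟩, hx'⟩ := ha
  obtain ⟨⟨y, hy, rfl⟩, hy'⟩ := hb
  exact ⟨x, y, fun e => hab (by rw [e]), h2 x hx hx', h2 y hy hy'⟩

theorem agree (hbb : S_BB) (hrr : S_RR) (hrc : S_RC) : S_AGREE := by
  intro F g g' hg hg'
  rcases hbb F g hg with ⟨S, T, h⟩ | ⟨S, T, h⟩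
  · rcases hbb F g' hg' with ⟨S', T', h'⟩ | ⟨S', T', h'⟩
    · obtain ⟨h1, h2⟩ := rr2 hrr h h'
      obtain ⟨x, hx, y, hy, hxy⟩ := Finset.one_lt_card.1 (show 1 < (S ∩ S').card by omega)
      exact ⟨x, y, hxy, h2 x hx, h2 y hy⟩
    · obtain ⟨x, y, hxy, hx, hy⟩ := rc_agree hrc h h'
      exact ⟨x, y, hxy, hx.symm, hy.symm⟩
  · rcases hbb F g' hg' with ⟨S', T', h'⟩ | ⟨S', T', h'⟩
    · exact rc_agree hrc h' h
    · obtain ⟨h1, h2⟩ := rr2 hrr h h'
      obtain ⟨x, hx, y, hy, hxy⟩ := Finset.one_lt_card.1 (show 1 < (T ∩ T').card by omega)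
      refine ⟨g⁻¹ x, g⁻¹ y, fun e => hxy (g⁻¹.injective e), ?_, ?_⟩
      · conv_rhs => rw [h2 x hx]
        simp
      · conv_rhs => rw [h2 y hy]
        simp

theorem two (hbb : S_BB) (hrr : S_RR) (hrc : S_RC) : S_TWO := by
  intro F
  by_cases hb : ∃ g₀, Bad F g₀
  · obtain ⟨g₀, hg₀⟩ := hb
    rcases hbb F g₀ hg₀ with ⟨S, T, h⟩ | ⟨S, T, h⟩
    · obtain ⟨x, hx, y, hy, hxy⟩ := Finset.one_lt_card.1 (show 1 < S.card by rw [h.1]; norm_num)
      refine ⟨x, y, g₀ x, g₀ y, fun g hg => ?_⟩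
      rcases hbb F g hg with ⟨S', T', h'⟩ | ⟨S', T', h'⟩
      · obtain ⟨h1, h2⟩ := rr2 hrr h h'
        rcases pick h.1 Finset.inter_subset_left h1 hx hy hxy with h3 | h3
        · exact Or.inl (h2 x h3).symm
        · exact Or.inr (h2 y h3).symm
      · obtain ⟨h1, h2⟩ := rcA hrc h h'
        obtain ⟨-, h5⟩ := img h
        rcases pick h5 Finset.inter_subset_left h1 (Finset.mem_image_of_mem _ hx)
          (Finset.mem_image_of_mem _ hy) (fun e => hxy (g₀.injective e)) with h3 | h3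
        · exact Or.inl (h2 x hx (Finset.mem_inter.1 h3).2)
        · exact Or.inr (h2 y hy (Finset.mem_inter.1 h3).2)
    · obtain ⟨x, hx, y, hy, hxy⟩ := Finset.one_lt_card.1 (show 1 < T.card by rw [h.1]; norm_num)
      refine ⟨g₀⁻¹ x, g₀⁻¹ y, x, y, fun g hg => ?_⟩
      rcases hbb F g hg with ⟨S', T', h'⟩ | ⟨S', T', h'⟩
      · obtain ⟨h1, h2⟩ := rcA hrc h' h
        have h4 : ∀ t, t ∈ S'.image g ∩ T → g (g₀⁻¹ t) = t := by
          intro t ht
          rw [Finset.mem_inter, Finset.mem_image] at ht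
          obtain ⟨⟨z, hz, rfl⟩, hz'⟩ := ht
          conv_lhs => rw [← h2 z hz hz']
          simp
        rcases pick h.1 Finset.inter_subset_right h1 hx hy hxy with h3 | h3
        · exact Or.inl (h4 x h3)
        · exact Or.inr (h4 y h3)
      · obtain ⟨h1, h2⟩ := rr2 hrr h h'
        rcases pick h.1 Finset.inter_subset_left h1 hx hy hxy with h3 | h3
        · left
          rw [h2 x h3]
          simp
        · right
          rw [h2 y h3]
          simp
  · exact ⟨0, 0, 0, 0, fun g hg => absurd ⟨g, hg⟩ hb⟩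

end Pool.Agent.H127.CP.Two
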